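import Pool.Agent.Helper89.GW.Stmts

set_option autoImplicit false

open scoped ContDiff Topology
open Set Filter

namespace GW

lemma leg_mono {Λ Λ' : Set (E × ℝ)} {p : E} (O : Set E) (hO : IsOpen O) (hp : p ∈ O)
    (h : ∀ a : E × ℝ, a.1 ∈ O → (a ∈ Λ ↔ a ∈ Λ')) (hL : LegAt Λ' p) : LegAt Λ p := by
  obtain ⟨V, hV, hpV, G1, G2, P, c1, c2, c3, hmem, hind, hbr, hd⟩ := hL
  refine ⟨V ∩ O, hV.inter hO, ⟨hpV, hp⟩, G1, G2, P, c1.mono inter_subset_left,
    c2.mono inter_subset_left, c3.mono inter_subset_left, ?_, hind, ?_, ?_⟩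
  · rintro q ⟨hq, hqO⟩ v
    rw [h (q, v) hqO, hmem q hq v]
  · rintro q ⟨hq, -⟩
    exact hbr q hq
  · rintro q ⟨hq, -⟩
    exact hd q hq

lemma leg_pr : Continuous pr := (continuous_apply 0).prodMk (continuous_apply 2)

lemma leg_pos (hH : ST_HHF) {u : ℝ × ℝ → ℝ} {z : ℝ × ℝ} {s : ℝ} (h : s ^ 2 = hh (u z / ee)) :
    0 < u z := by
  by_contra hc
  rw [not_lt] at hc
  have he : (0 : ℝ) < ee := by norm_num [ee]
  have h1 : u z / ee ≤ 0 := div_nonpos_of_nonpos_of_nonneg hc he.le
  have h2 := hH.2.1 (u z / ee) (by linarith)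
  rw [h2] at h
  nlinarith [sq_nonneg s]

lemma leg_O1 : IsOpen {z : ℝ × ℝ | O1 z} :=
  (isOpen_lt continuous_snd continuous_const).union (isOpen_lt continuous_const continuous_snd)

lemma leg_O3 : IsOpen {z : ℝ × ℝ | O3 z} :=
  (isOpen_lt continuous_const continuous_fst).inter
    ((isOpen_lt continuous_fst continuous_const).inter
      ((isOpen_lt continuous_const continuous_snd).inter
        (isOpen_lt continuous_snd continuous_const)))

lemma leg_O2 : IsOpen {z : ℝ × ℝ | O2 z} := by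
  have h1 : IsClosed {z : ℝ × ℝ | 15 / 4 ≤ z.1 ∧ z.1 ≤ 29 / 4 ∧ 35 / 4 ≤ z.2 ∧ z.2 ≤ 61 / 4} :=
    (isClosed_le continuous_const continuous_fst).inter
    ((isClosed_le continuous_fst continuous_const).inter
      ((isClosed_le continuous_const continuous_snd).inter
        (isClosed_le continuous_snd continuous_const)))
  exact (isOpen_lt continuous_const continuous_snd).inter
    ((isOpen_lt continuous_snd continuous_const).inter h1.isOpen_compl)

lemma leg_dX0 (z : ℝ × ℝ) : dX (fun _ => (0 : ℝ)) z = 0 := by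
  simp [dX]

lemma leg_dT0 (z : ℝ × ℝ) : dT (fun _ => (0 : ℝ)) z = 0 := by
  simp [dT]

lemma leg_ext {p q : E} (h0 : p 0 = q 0) (h1 : p 1 = q 1) (h2 : p 2 = q 2) (h3 : p 3 = q 3) :
    p = q := by
  funext i
  fin_cases i
  · exact h0
  · exact h1
  · exact h2
  · exact h3

lemma leg_mR (h1 : ContDiff ℝ ∞ (sp mI)) (h2 : ContDiff ℝ ∞ (sp xI)) (z : ℝ × ℝ) :
    dX mR z = dX (sp mI) z + 2 * kk * dX (sp xI) z ∧
      dT mR z = dT (sp mI) z + 2 * kk * dT (sp xI) z := by
  have e1 : DifferentiableAt ℝ (sp mI) z := (h1.differentiable (by simp)).differentiableAt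
  have e2 : DifferentiableAt ℝ (sp xI) z := (h2.differentiable (by simp)).differentiableAt
  have e3 : HasFDerivAt mR (fderiv ℝ (sp mI) z + (2 * kk) • fderiv ℝ (sp xI) z) z :=
    e1.hasFDerivAt.add (e2.hasFDerivAt.const_mul (2 * kk))
  constructor
  · simp only [dX]
    rw [e3.fderiv]
    simp
  · simp only [dT]
    rw [e3.fderiv]
    simp

theorem st_LEG (hREG : ST_REG) (hGLEG : ST_GLEG) (hJLEG : ST_JLEG) (hJCL : ST_JCL)
    (hNP1 : ST_NP1) (hNP2A : ST_NP2A) (hNP2B : ST_NP2B) (hNP2AB : ST_NP2AB) (hNP3 : ST_NP3)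
    (hQUAD : ST_QUAD) (hQDAT : ST_QDAT) (hSREF : ST_SREF) (hHHF : ST_HHF) (hDAT : ST_DAT)
    (hSPD : ST_SPD) (hMU : ST_MU) : ST_LEG := by
  obtain ⟨⟨sA, sA', sB, sM, sP, sQ, sX⟩, ⟨rA, rA', -⟩, -⟩ := hDAT
  have cA : ContDiff ℝ ∞ uA := (hSPD _ sA).1
  have cA' : ContDiff ℝ ∞ uA' := (hSPD _ sA').1
  have cB : ContDiff ℝ ∞ uB := (hSPD _ sB).1
  have cM : ContDiff ℝ ∞ (sp mI) := (hSPD _ sM).1
  have cX : ContDiff ℝ ∞ (sp xI) := (hSPD _ sX).1
  have cP : ContDiff ℝ ∞ (sp pI) := (hSPD _ sP).1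
  have cQ : ContDiff ℝ ∞ (sp qI) := (hSPD _ sQ).1
  have cmR : ContDiff ℝ ∞ mR := cM.add (contDiff_const.mul cX)
  have cphX : ContDiff ℝ ∞ phX := (cP.add cQ).div_const 2
  have cuX : ContDiff ℝ ∞ uX := (cP.sub cQ).div_const 2
  have cpsA : ContDiff ℝ ∞ psA := cA.neg.add contDiff_const
  have cpsB : ContDiff ℝ ∞ psB := (cM.sub cB).add contDiff_const
  have c0 : ContDiff ℝ ∞ (fun _ : ℝ × ℝ => (0 : ℝ)) := contDiff_const
  have kX : HasCompactSupport uX := by
    have h1 : HasCompactSupport (fun z => sp pI z - sp qI z) :=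
      (hSPD _ sP).2.1.sub (hSPD _ sQ).2.1
    have h2 : uX = fun z => (1 / 2 : ℝ) * (sp pI z - sp qI z) := by
      funext z
      simp only [uX]
      ring
    rw [h2]
    exact h1.mul_left
  have hmu0 : mu 0 = 1 / 2 := by
    have := hMU.2.2.2.2.2.1 0
    rw [neg_zero] at this
    linarith
  intro p hp hd1 hd2 hd3
  obtain ⟨v, hv⟩ := hp
  rcases hREG.1 (pr p) with hO | hO | hO
  · -- region 1
    have h1 : (p, v) ∈ Jn (fun _ => 0) uA := (hREG.2.1 (p, v) hO).1 hv
    have h2 : LegAt (Jn (fun _ => 0) uA) p := by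
      apply hJLEG _ _ p c0 cA ⟨v, h1⟩
      obtain ⟨s, hs, -⟩ := h1
      exact hNP1 _ hO (leg_pos hHHF hs)
    exact leg_mono (pr ⁻¹' {z | O1 z}) (leg_O1.preimage leg_pr) hO
      (fun a ha => hREG.2.1 a ha) h2
  · -- region 2
    have h1 := (hREG.2.2.1 (p, v) hO).1 hv
    by_cases hA : p ∈ prj (Jn (fun _ => 0) uA')
    · by_cases hB : p ∈ prj (Jn mR uB)
      · exfalso
        obtain ⟨v1, s, hs, e1, e3, -⟩ := hA
        obtain ⟨v2, s', hs', e1', e3', -⟩ := hB
        simp only [leg_dX0, leg_dT0, zero_add] at e1 e3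
        obtain ⟨hz, rfl, -⟩ := hNP2AB (pr p) s s' hO hs hs' (e1.symm.trans e1')
          (e3.symm.trans e3')
        apply hd3
        have hz' : (p 0, p 2) = ((8 : ℝ), (12 : ℝ)) := hz
        have z0 : p 0 = 8 := (Prod.mk.injEq _ _ _ _).mp hz' |>.1
        have z2 : p 2 = 12 := (Prod.mk.injEq _ _ _ _).mp hz' |>.2
        have hr := (hSREF aI' sA' rA' 8 12).2.2
        have hr' : dT uA' (8, 12) = 0 := by
          have : dT uA' (8, 12) = - dT uA' (8, 12) := by
            have h24 : (24 : ℝ) - 12 = 12 := by norm_num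
            rw [h24] at hr
            exact hr
          linarith
        rw [hz] at e1 e3
        apply leg_ext
        · simpa [d3] using z0
        · simpa [d3] using e1
        · simpa [d3] using z2
        · rw [hr'] at e3
          simpa [d3] using e3
      · have hcl : IsOpen (prj (Jn mR uB))ᶜ :=
          (hJCL mR uB cmR cB (hSPD _ sB).2.1).isClosed.isOpen_compl
        have h2 : LegAt (Jn (fun _ => 0) uA') p := by
          apply hJLEG _ _ p c0 cA' hA
          obtain ⟨v1, s, hs, e1, e3, -⟩ := hA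
          apply hNP2A _ hO (leg_pos hHHF hs)
          intro hz
          apply hd1
          have hz' : (p 0, p 2) = ((11 : ℝ), (12 : ℝ)) := hz
          have z0 : p 0 = 11 := (Prod.mk.injEq _ _ _ _).mp hz' |>.1
          have z2 : p 2 = 12 := (Prod.mk.injEq _ _ _ _).mp hz' |>.2
          have hq := hQUAD aI' 11 266 10 2 sA' (by norm_num) (by norm_num)
            (fun i j hi hj => (hQDAT i j hi hj).1) 11 12 (by norm_num) (by norm_num)
          have hq1 : dX uA' (11, 12) = 0 := by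
            have := hq.1
            simp only [Int.cast_ofNat, sub_self, hmu0] at this
            rw [show uA' = sp aI' from rfl, this]
            norm_num
          have hq2 : dT uA' (11, 12) = 0 := by
            have := hq.2
            simp only [sub_self, hmu0] at this
            rw [show uA' = sp aI' from rfl, this]
            norm_num
          simp only [leg_dX0, leg_dT0, zero_add] at e1 e3
          rw [hz, hq1, mul_zero] at e1
          rw [hz, hq2, mul_zero] at e3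
          apply leg_ext
          · simpa [d1] using z0
          · simpa [d1] using e1
          · simpa [d1] using z2
          · simpa [d1] using e3
        refine leg_mono (pr ⁻¹' {z | O2 z} ∩ (prj (Jn mR uB))ᶜ)
          ((leg_O2.preimage leg_pr).inter hcl) ⟨hO, hB⟩ ?_ h2
        rintro a ⟨ha1, ha2⟩
        rw [hREG.2.2.1 a ha1]
        constructor
        · rintro (h | h)
          · exact h
          · exact absurd ⟨a.2, h⟩ ha2
        · exact Or.inl
    · have hB : p ∈ prj (Jn mR uB) := by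
        rcases h1 with h | h
        · exact absurd ⟨v, h⟩ hA
        · exact ⟨v, h⟩
      have hcl : IsOpen (prj (Jn (fun _ => 0) uA'))ᶜ :=
        (hJCL _ uA' c0 cA' (hSPD _ sA').2.1).isClosed.isOpen_compl
      have h2 : LegAt (Jn mR uB) p := by
        apply hJLEG _ _ p cmR cB hB
        obtain ⟨v1, s, hs, e1, e3, -⟩ := hB
        apply hNP2B _ hO (leg_pos hHHF hs)
        intro hz
        apply hd2
        have hz' : (p 0, p 2) = ((-5 : ℝ), (12 : ℝ)) := hz
        have z0 : p 0 = -5 := (Prod.mk.injEq _ _ _ _).mp hz' |>.1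
        have z2 : p 2 = 12 := (Prod.mk.injEq _ _ _ _).mp hz' |>.2
        have hq := hQUAD bI (-5) 278 10 2 sB (by norm_num) (by norm_num)
          (fun i j hi hj => (hQDAT i j hi hj).2.1) (-5) 12 (by norm_num) (by norm_num)
        have hqm := hQUAD mI (-5) 0 0 0 sM (by norm_num) (by norm_num)
          (fun i j hi hj => by rw [(hQDAT i j hi hj).2.2.2.1]; simp) (-5) 12 (by norm_num)
            (by norm_num)
        have hqx := hQUAD xI (-5) 0 0 0 sX (by norm_num) (by norm_num)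
          (fun i j hi hj => by rw [(hQDAT i j hi hj).2.2.2.2.1]; simp) (-5) 12 (by norm_num)
            (by norm_num)
        have hq1 : dX uB (-5, 12) = 0 := by
          have := hq.1
          rw [show uB = sp bI from rfl, this]
          simp [hmu0]
        have hq2 : dT uB (-5, 12) = 0 := by
          have := hq.2
          rw [show uB = sp bI from rfl, this]
          simp [hmu0]
        have hm := leg_mR cM cX (-5, 12)
        have hm1 : dX mR (-5, 12) = 0 := by
          rw [hm.1, hqm.1, hqx.1]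
          simp
        have hm2 : dT mR (-5, 12) = 0 := by
          rw [hm.2, hqm.2, hqx.2]
          simp
        rw [hz] at e1 e3
        rw [hm1, hq1, mul_zero, add_zero] at e1
        rw [hm2, hq2, mul_zero, add_zero] at e3
        apply leg_ext
        · simpa [d2] using z0
        · simpa [d2] using e1
        · simpa [d2] using z2
        · simpa [d2] using e3
      refine leg_mono (pr ⁻¹' {z | O2 z} ∩ (prj (Jn (fun _ => 0) uA'))ᶜ)
        ((leg_O2.preimage leg_pr).inter hcl) ⟨hO, hA⟩ ?_ h2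
      rintro a ⟨ha1, ha2⟩
      rw [hREG.2.2.1 a ha1]
      constructor
      · rintro (h | h)
        · exact absurd ⟨a.2, h⟩ ha2
        · exact h
      · exact Or.inr
  · -- region 3
    have h1 := (hREG.2.2.2 (p, v) hO).1 hv
    have oJ : IsOpen (prj (Jn phX uX))ᶜ := (hJCL phX uX cphX cuX kX).isClosed.isOpen_compl
    have oA : IsOpen (prj (Gr psA))ᶜ := (hGLEG psA cpsA).2.1.isOpen_compl
    have oB : IsOpen (prj (Gr psB))ᶜ := (hGLEG psB cpsB).2.1.isOpen_compl
    have hJA : p ∈ prj (Jn phX uX) → p ∉ prj (Gr psA) := by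
      rintro ⟨v1, s, hs, e1, -⟩ ⟨v2, e2, -⟩
      exact (hNP3.2.1 (pr p) s hO hs).1 (e1.symm.trans e2)
    have hJB : p ∈ prj (Jn phX uX) → p ∉ prj (Gr psB) := by
      rintro ⟨v1, s, hs, e1, -⟩ ⟨v2, e2, -⟩
      exact (hNP3.2.1 (pr p) s hO hs).2 (e1.symm.trans e2)
    have hAB : p ∈ prj (Gr psA) → p ∉ prj (Gr psB) := by
      rintro ⟨v1, e1, -⟩ ⟨v2, e2, -⟩
      exact hNP3.2.2 (pr p) hO (e1.symm.trans e2)
    have o3 : IsOpen (pr ⁻¹' {z | O3 z}) := leg_O3.preimage leg_pr
    rcases h1 with h | h | h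
    · have hJ : p ∈ prj (Jn phX uX) := ⟨v, h⟩
      have h2 : LegAt (Jn phX uX) p := by
        apply hJLEG _ _ p cphX cuX hJ
        obtain ⟨s, hs, -⟩ := h
        exact hNP3.1 _ hO (leg_pos hHHF hs)
      refine leg_mono (pr ⁻¹' {z | O3 z} ∩ ((prj (Gr psA))ᶜ ∩ (prj (Gr psB))ᶜ))
        (o3.inter (oA.inter oB)) ⟨hO, hJA hJ, hJB hJ⟩ ?_ h2
      rintro a ⟨ha1, ha2, ha3⟩
      rw [hREG.2.2.2 a ha1]
      constructor
      · rintro (h | h | h)
        · exact h
        · exact absurd ⟨a.2, h⟩ ha2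
        · exact absurd ⟨a.2, h⟩ ha3
      · exact Or.inl
    · have hJ : p ∈ prj (Gr psA) := ⟨v, h⟩
      refine leg_mono (pr ⁻¹' {z | O3 z} ∩ ((prj (Jn phX uX))ᶜ ∩ (prj (Gr psB))ᶜ))
        (o3.inter (oJ.inter oB)) ⟨hO, fun h' => hJA h' hJ, hAB hJ⟩ ?_ ((hGLEG psA cpsA).1 p)
      rintro a ⟨ha1, ha2, ha3⟩
      rw [hREG.2.2.2 a ha1]
      constructor
      · rintro (h | h | h)
        · exact absurd ⟨a.2, h⟩ ha2
        · exact h
        · exact absurd ⟨a.2, h⟩ ha3
      · exact fun h => Or.inr (Or.inl h)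
    · have hJ : p ∈ prj (Gr psB) := ⟨v, h⟩
      refine leg_mono (pr ⁻¹' {z | O3 z} ∩ ((prj (Jn phX uX))ᶜ ∩ (prj (Gr psA))ᶜ))
        (o3.inter (oJ.inter oA)) ⟨hO, fun h' => hJB h' hJ, fun h' => hAB h' hJ⟩ ?_
        ((hGLEG psB cpsB).1 p)
      rintro a ⟨ha1, ha2, ha3⟩
      rw [hREG.2.2.2 a ha1]
      constructor
      · rintro (h | h | h)
        · exact absurd ⟨a.2, h⟩ ha2
        · exact absurd ⟨a.2, h⟩ ha3
        · exact h
      · exact fun h => Or.inr (Or.inr h)

end GW
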